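import Mathlib
import Pool.Agent.H370R2.Local
import Pool.Agent.H370R2.DirGood
import Pool.Agent.Helper242.KK.Gam1

open Complex Filter Topology Set MeasureTheory Metric

namespace Pool.Agent.Y24.GS

/-- Lower bound from a bound of the logarithmic derivative (Gronwall on the segment). -/
lemma lower_of_logDeriv {g : ℂ → ℂ} {c z : ℂ} {r L : ℝ} (hr : 0 ≤ r) (hL : 0 ≤ L)
    (hg : AnalyticOnNhd ℂ g (closedBall c r)) (hg0 : ∀ w ∈ closedBall c r, g w ≠ 0)
    (hb : ∀ w ∈ closedBall c r, ‖logDeriv g w‖ ≤ L) (hz : z ∈ closedBall c r) :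
    ‖g c‖ ≤ ‖g z‖ * Real.exp (L * r) := by
  have hcz : ‖c - z‖ ≤ r := by
    rw [mem_closedBall, dist_eq_norm, norm_sub_rev] at hz
    exact hz
  have hseg : ∀ u ∈ Icc (0 : ℝ) 1, z + (u : ℂ) * (c - z) ∈ closedBall c r := by
    intro u hu
    rw [mem_closedBall, dist_eq_norm]
    have h1 : z + (u : ℂ) * (c - z) - c = ((1 - u : ℝ) : ℂ) * (z - c) := by
      push_cast; ring
    rw [h1, norm_mul, Complex.norm_real, Real.norm_eq_abs, abs_of_nonneg (by linarith [hu.2]),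
      norm_sub_rev]
    nlinarith [norm_nonneg (c - z), hu.1, hu.2]
  have hder : ∀ u ∈ Icc (0 : ℝ) 1, HasDerivAt (fun v : ℝ => g (z + (v : ℂ) * (c - z)))
      (deriv g (z + (u : ℂ) * (c - z)) * (c - z)) u := by
    intro u hu
    have h1 : HasDerivAt g (deriv g (z + (u : ℂ) * (c - z))) (z + (u : ℂ) * (c - z)) :=
      (hg _ (hseg u hu)).differentiableAt.hasDerivAt
    have h2 : HasDerivAt (fun v : ℂ => z + v * (c - z)) (c - z) (u : ℂ) := by
      simpa using ((hasDerivAt_id (u : ℂ)).mul_const (c - z)).const_add z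
    exact (HasDerivAt.comp (u : ℂ) h1 h2).comp_ofReal
  have key := norm_le_gronwallBound_of_norm_deriv_right_le
    (f := fun v : ℝ => g (z + (v : ℂ) * (c - z)))
    (f' := fun u : ℝ => deriv g (z + (u : ℂ) * (c - z)) * (c - z))
    (δ := ‖g z‖) (K := L * r) (ε := 0) (a := 0) (b := 1)
    (fun u hu => (hder u hu).continuousAt.continuousWithinAt)
    (fun u hu => (hder u ⟨hu.1, hu.2.le⟩).hasDerivWithinAt)
    (by simp)
    (fun u hu => by
      have hu' : u ∈ Icc (0 : ℝ) 1 := ⟨hu.1, hu.2.le⟩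
      have h1 := hb _ (hseg u hu')
      have h2 := hg0 _ (hseg u hu')
      rw [logDeriv_apply, norm_div, div_le_iff₀ (norm_pos_iff.2 h2)] at h1
      rw [norm_mul, add_zero]
      calc ‖deriv g (z + (u : ℂ) * (c - z))‖ * ‖c - z‖
          ≤ (L * ‖g (z + (u : ℂ) * (c - z))‖) * r :=
            mul_le_mul h1 hcz (norm_nonneg _) (by positivity)
        _ = L * r * ‖g (z + (u : ℂ) * (c - z))‖ := by ring)
    1 ⟨zero_le_one, le_rfl⟩
  rw [gronwallBound_ε0] at key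
  simpa using key

/-- Removal of the zeros near a point of a function with polynomial growth. -/
theorem good_remove {F : ℂ → ℂ} (hF : H370.GoodL F) : ∃ K : ℝ, 0 < K ∧ ∀ (ρ0 : ℂ) (δ : ℝ),
    ρ0.re = 1 / 2 → 3 ≤ ρ0.im → 0 < δ → δ ≤ 1 / 2 →
    ∃ (s : Multiset ℂ) (g : ℂ → ℂ), (∀ ρ ∈ s, F ρ = 0 ∧ ‖ρ - ρ0‖ < δ) ∧
      (Multiset.card s : ℝ) ≤ K * Real.log ρ0.im ∧ (∀ z, F z = H370.Loc.Pf s z * g z) ∧
      AnalyticAt ℂ g ρ0 ∧ AnalyticOnNhd ℂ g (closedBall ρ0 (1 / 4)) ∧ g ρ0 ≠ 0 ∧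
      Real.exp (-K * Real.log ρ0.im) * δ ^ (K * Real.log ρ0.im) ≤ ‖g ρ0‖ := by
  classical
  obtain ⟨K0, hK0, hdata⟩ := H370.Loc.ball_data hF
  -- constants
  set a : ℝ := Real.log (1.9 / 1.8) with ha
  have ha0 : 0 < a := Real.log_pos (by norm_num)
  set b : ℝ := Real.log (1.8 / (1.9 - 1.8)) with hb
  have hb0 : 0 ≤ b := Real.log_nonneg (by norm_num)
  set K1 : ℝ := K0 + K0 / a * b with hK1
  have hK1p : 0 < K1 := by positivity
  set e : ℝ := Real.log 1.8 with he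
  have he0 : 0 ≤ e := Real.log_nonneg (by norm_num)
  -- g0(c) >= exp(-K0 log t) / 1.8 ^ n ; log derivative bound 160*(K1 log t + 1) * ...
  set K : ℝ := K0 / a + K0 + K0 / a * e + (2 * (K1 + 1) * 1.6 / (1.8 - 1.6) / (1.6 - 1.5)) * 1.5
    with hK
  have hK1' : 0 ≤ 2 * (K1 + 1) * 1.6 / (1.8 - 1.6) / (1.6 - 1.5) := by
    norm_num
    positivity
  have hKa : K0 / a ≤ K := by
    have h1 : 0 ≤ K0 / a * e := by positivity
    have : 0 ≤ (2 * (K1 + 1) * 1.6 / (1.8 - 1.6) / (1.6 - 1.5)) * 1.5 := by linarith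
    rw [hK]; linarith
  have hKpos : 0 < K := lt_of_lt_of_le (by positivity) hKa
  refine ⟨K, hKpos, fun ρ0 δ hre him hδ hδ2 => ?_⟩
  set t : ℝ := ρ0.im with ht
  have hlog1 : 1 ≤ Real.log t := H370.Loc.one_le_log him
  obtain ⟨M, hM1, hfan, hfc, hfb, hMc, hl0, hlK⟩ := hdata t him
  set c : ℂ := ⟨2, t⟩ with hc
  obtain ⟨s0, g0, hs, hg, hfg, hg0, hcard⟩ :=
    H370.Loc.extract (r := 1.8) (R := 1.9) (by norm_num) (by norm_num) hM1 hfan hfc hfb
  set n := Multiset.card s0 with hn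
  have hfcp : 0 < ‖F c‖ := norm_pos_iff.2 hfc
  have hn1 : (n : ℝ) ≤ K0 / a * Real.log t := by
    refine hcard.trans ?_
    rw [div_mul_eq_mul_div]
    exact div_le_div_of_nonneg_right hlK ha0.le
  have hcr : c ∈ closedBall c (1.8 : ℝ) := mem_closedBall_self (by norm_num)
  -- distance of ρ0 to c
  have hρc : ρ0 ∈ closedBall c (1.5 : ℝ) := by
    rw [mem_closedBall, dist_eq_norm]
    have h1 : ρ0 - c = ((-(3 / 2) : ℝ) : ℂ) := by
      apply Complex.ext
      · simp [hc, hre]; norm_num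
      · simp [hc, ht]
    rw [h1, Complex.norm_real, Real.norm_eq_abs, abs_of_nonpos (by norm_num)]
    norm_num
  -- bounds for g0
  have hgsphere : ∀ w ∈ sphere c (1.9 : ℝ), ‖g0 w‖ ≤ M / (1.9 - 1.8 : ℝ) ^ n := by
    intro w hw
    have hwR := sphere_subset_closedBall hw
    have h1 : (1.9 - 1.8 : ℝ) ^ n ≤ ‖H370.Loc.Pf s0 w‖ :=
      H370.Loc.Pf_norm_ge (by norm_num) fun ρ hρ => by
        have h2 := (hs ρ hρ).1
        rw [mem_closedBall, dist_eq_norm] at h2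
        rw [mem_sphere, dist_eq_norm] at hw
        have h3 : ‖w - c‖ ≤ ‖w - ρ‖ + ‖ρ - c‖ := by
          calc ‖w - c‖ = ‖(w - ρ) + (ρ - c)‖ := by congr 1; ring
            _ ≤ _ := norm_add_le _ _
        linarith
    rw [le_div_iff₀ (pow_pos (by norm_num) n)]
    calc ‖g0 w‖ * (1.9 - 1.8 : ℝ) ^ n ≤ ‖g0 w‖ * ‖H370.Loc.Pf s0 w‖ :=
          mul_le_mul_of_nonneg_left h1 (norm_nonneg _)
      _ = ‖F w‖ := by rw [hfg w, norm_mul, mul_comm]
      _ ≤ M := hfb w hwR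
  have hgball : ∀ w ∈ closedBall c (1.9 : ℝ), ‖g0 w‖ ≤ M / (1.9 - 1.8 : ℝ) ^ n := by
    intro w hw
    refine Complex.norm_le_of_forall_mem_frontier_norm_le (U := ball c (1.9 : ℝ))
      isBounded_ball ?_ ?_ ?_
    · apply DifferentiableOn.diffContOnCl
      rw [closure_ball c (by norm_num)]
      exact fun x hx => (hg x hx).differentiableAt.differentiableWithinAt
    · intro x hx
      rw [frontier_ball c (by norm_num)] at hx
      exact hgsphere x hx
    · rwa [closure_ball c (by norm_num)]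
  have hgc : ‖F c‖ / 1.8 ^ n ≤ ‖g0 c‖ := by
    rw [div_le_iff₀ (by positivity)]
    have h1 : ‖H370.Loc.Pf s0 c‖ ≤ 1.8 ^ n := H370.Loc.Pf_norm_le fun ρ hρ => by
      have h2 := (hs ρ hρ).1
      rw [mem_closedBall, dist_eq_norm, norm_sub_rev] at h2
      exact h2
    calc ‖F c‖ = ‖g0 c‖ * ‖H370.Loc.Pf s0 c‖ := by rw [hfg c, norm_mul, mul_comm]
      _ ≤ ‖g0 c‖ * 1.8 ^ n := mul_le_mul_of_nonneg_left h1 (norm_nonneg _)
  set B : ℝ := Real.log (M / ‖F c‖) + n * b with hB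
  have hB0 : 0 ≤ B := by positivity
  have hexpB : Real.exp B = M / ‖F c‖ * (1.8 / (1.9 - 1.8)) ^ n := by
    rw [hB, Real.exp_add, Real.exp_log (by positivity), Real.exp_nat_mul, hb,
      Real.exp_log (by norm_num)]
  have hgb : ∀ w ∈ closedBall c (1.8 : ℝ), ‖g0 w‖ ≤ Real.exp B * ‖g0 c‖ := by
    intro w hw
    refine (hgball w (closedBall_subset_closedBall (by norm_num) hw)).trans ?_
    rw [hexpB]
    calc M / (1.9 - 1.8 : ℝ) ^ n
        = M / ‖F c‖ * (1.8 / (1.9 - 1.8)) ^ n * (‖F c‖ / 1.8 ^ n) := by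
          rw [div_pow]; field_simp
      _ ≤ _ := mul_le_mul_of_nonneg_left hgc (by positivity)
  have hBK : B ≤ K1 * Real.log t := by
    have h1 : (n : ℝ) * b ≤ K0 / a * Real.log t * b := mul_le_mul_of_nonneg_right hn1 hb0
    rw [hB, hK1]
    nlinarith
  set L : ℝ := 2 * (K1 + 1) * 1.6 / (1.8 - 1.6) / (1.6 - 1.5) * Real.log t with hL
  have hL0 : 0 ≤ L := by positivity
  have hlg : ∀ z ∈ closedBall c (1.5 : ℝ), ‖logDeriv g0 z‖ ≤ L := by
    intro z hz
    have h1 := H370.Loc.logDeriv_zero_free (r := 1.8) (r1 := 1.6) (r2 := 1.5) (by norm_num)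
      (by norm_num) (by norm_num) hB0
      (hg.mono (closedBall_subset_closedBall (by norm_num))) hg0 hgb hz
    refine h1.trans ?_
    have h2 : B + 1 ≤ (K1 + 1) * Real.log t := by nlinarith
    rw [hL]
    have h3 : 2 * (B + 1) * 1.6 / (1.8 - 1.6) / (1.6 - 1.5) = (B + 1) * 160 := by norm_num; ring
    have h4 : 2 * (K1 + 1) * 1.6 / (1.8 - 1.6) / (1.6 - 1.5) * Real.log t
      = (K1 + 1) * Real.log t * 160 := by norm_num; ring
    rw [h3, h4]
    exact mul_le_mul_of_nonneg_right h2 (by norm_num)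
  have hlow := lower_of_logDeriv (r := 1.5) (by norm_num) hL0
    (hg.mono (closedBall_subset_closedBall (by norm_num)))
    (fun w hw => hg0 w (closedBall_subset_closedBall (by norm_num) hw)) hlg hρc
  -- the lower bound for g0 at ρ0
  have hFc : Real.exp (-(K0 * Real.log t)) ≤ ‖F c‖ := by
    rw [Real.exp_neg, inv_le_comm₀ (Real.exp_pos _) hfcp]
    calc ‖F c‖⁻¹ ≤ M / ‖F c‖ := by
          rw [inv_eq_one_div]; exact div_le_div_of_nonneg_right hM1 hfcp.le
      _ = Real.exp (Real.log (M / ‖F c‖)) := (Real.exp_log (by positivity)).symm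
      _ ≤ _ := Real.exp_le_exp.2 hlK
  have h18 : Real.exp (-(K0 / a * e * Real.log t)) ≤ 1 / (1.8 : ℝ) ^ n := by
    have h1 : (1.8 : ℝ) ^ n = Real.exp (n * e) := by
      rw [Real.exp_nat_mul, he, Real.exp_log (by norm_num)]
    rw [h1, one_div, ← Real.exp_neg]
    apply Real.exp_le_exp.2
    have := mul_le_mul_of_nonneg_right hn1 he0
    nlinarith
  have hg0low : Real.exp (-(K0 * Real.log t)) * Real.exp (-(K0 / a * e * Real.log t)) *
      Real.exp (-(L * 1.5)) ≤ ‖g0 ρ0‖ := by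
    have h1 : Real.exp (-(K0 * Real.log t)) * Real.exp (-(K0 / a * e * Real.log t)) ≤ ‖g0 c‖ := by
      refine le_trans ?_ hgc
      have h9 : ‖F c‖ / (1.8 : ℝ) ^ n = ‖F c‖ * (1 / (1.8 : ℝ) ^ n) := div_eq_mul_one_div _ _
      rw [h9]
      exact mul_le_mul hFc h18 (Real.exp_pos _).le hfcp.le
    calc _ ≤ ‖g0 c‖ * Real.exp (-(L * 1.5)) := mul_le_mul_of_nonneg_right h1 (Real.exp_pos _).le
      _ ≤ (‖g0 ρ0‖ * Real.exp (L * 1.5)) * Real.exp (-(L * 1.5)) :=
          mul_le_mul_of_nonneg_right hlow (Real.exp_pos _).le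
      _ = ‖g0 ρ0‖ := by rw [mul_assoc, ← Real.exp_add]; simp
  -- split the multiset
  set p : ℂ → Prop := fun ρ => ‖ρ - ρ0‖ < δ with hp
  have hsplit : s0 = s0.filter p + s0.filter (fun ρ => ¬ p ρ) :=
    (Multiset.filter_add_not p s0).symm
  have hPf : ∀ z, H370.Loc.Pf s0 z =
      H370.Loc.Pf (s0.filter p) z * H370.Loc.Pf (s0.filter (fun ρ => ¬ p ρ)) z := by
    intro z
    conv_lhs => rw [hsplit]
    unfold H370.Loc.Pf
    rw [Multiset.map_add, Multiset.prod_add]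
  have hρ8 : ρ0 ∈ closedBall c (1.8 : ℝ) := closedBall_subset_closedBall (by norm_num) hρc
  have hrest : ∀ ρ ∈ s0.filter (fun ρ => ¬ p ρ), δ ≤ ‖ρ0 - ρ‖ := by
    intro ρ hρ
    have h1 := (Multiset.mem_filter.1 hρ).2
    simp only [hp, not_lt] at h1
    rwa [norm_sub_rev]
  have hball : closedBall ρ0 (1 / 4) ⊆ closedBall c (1.9 : ℝ) := by
    intro w hw
    rw [mem_closedBall] at hw hρc ⊢
    have := dist_triangle w ρ0 c
    norm_num at hρc ⊢
    linarith
  refine ⟨s0.filter p, fun z => H370.Loc.Pf (s0.filter (fun ρ => ¬ p ρ)) z * g0 z, ?_, ?_, ?_, ?_,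
    ?_, ?_, ?_⟩
  · intro ρ hρ
    have h1 := Multiset.mem_filter.1 hρ
    exact ⟨(hs ρ h1.1).2, h1.2⟩
  · have h1 : (Multiset.card (s0.filter p) : ℝ) ≤ n := by
      exact_mod_cast Multiset.card_le_card (Multiset.filter_le p s0)
    refine h1.trans (hn1.trans ?_)
    exact mul_le_mul_of_nonneg_right hKa (by linarith)
  · intro z
    rw [hfg z, hPf z]; ring
  · exact ((H370.Loc.Pf_diff _).analyticAt ρ0).mul
      (hg ρ0 (closedBall_subset_closedBall (by norm_num) hρ8))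
  · intro w hw
    exact ((H370.Loc.Pf_diff _).analyticAt w).mul (hg w (hball hw))
  · refine mul_ne_zero (H370.Loc.Pf_ne_zero fun ρ hρ h => ?_) (hg0 ρ0 hρ8)
    have := hrest ρ hρ
    rw [h, sub_self, norm_zero] at this
    linarith
  · rw [norm_mul]
    have h1 : δ ^ (K * Real.log t) ≤ ‖H370.Loc.Pf (s0.filter (fun ρ => ¬ p ρ)) ρ0‖ := by
      refine le_trans ?_ (H370.Loc.Pf_norm_ge hδ.le hrest)
      rw [← Real.rpow_natCast]
      apply Real.rpow_le_rpow_of_exponent_ge hδ (by linarith)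
      have h2 : (Multiset.card (s0.filter (fun ρ => ¬ p ρ)) : ℝ) ≤ n := by
        exact_mod_cast Multiset.card_le_card (Multiset.filter_le _ s0)
      exact h2.trans (hn1.trans (mul_le_mul_of_nonneg_right hKa (by linarith)))
    have h2 : Real.exp (-K * Real.log t) ≤ ‖g0 ρ0‖ := by
      refine le_trans ?_ hg0low
      rw [← Real.exp_add, ← Real.exp_add]
      apply Real.exp_le_exp.2
      have h3 : 0 ≤ K0 / a * Real.log t := by positivity
      have h4 : L * 1.5 = (2 * (K1 + 1) * 1.6 / (1.8 - 1.6) / (1.6 - 1.5)) * 1.5 * Real.log t := by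
        rw [hL]; ring
      rw [h4, hK]
      nlinarith
    rw [mul_comm]
    exact mul_le_mul h1 h2 (Real.exp_pos _).le (norm_nonneg _)

theorem zeta_remove : ∃ K : ℝ, 0 < K ∧ ∀ (ρ0 : ℂ) (δ : ℝ), riemannZeta ρ0 = 0 →
    ρ0.re = 1 / 2 → 3 ≤ ρ0.im → 0 < δ → δ ≤ 1 / 2 →
    ∃ (s : Multiset ℂ) (g : ℂ → ℂ), (∀ ρ ∈ s, riemannZeta ρ = 0 ∧ ‖ρ - ρ0‖ < δ) ∧
      (Multiset.card s : ℝ) ≤ K * Real.log ρ0.im ∧
      (∀ z, riemannZeta z = H370.Loc.Pf s z * g z) ∧
      AnalyticAt ℂ g ρ0 ∧ AnalyticOnNhd ℂ g (Metric.closedBall ρ0 (1 / 4)) ∧ g ρ0 ≠ 0 ∧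
      Real.exp (-K * Real.log ρ0.im) * δ ^ (K * Real.log ρ0.im) ≤ ‖g ρ0‖ := by
  obtain ⟨K, hK, h⟩ := good_remove H370.good_zeta
  exact ⟨K, hK, fun ρ0 δ _ h1 h2 h3 h4 => h ρ0 δ h1 h2 h3 h4⟩

theorem gammaR_lower : ∃ c : ℝ, 0 < c ∧ ∀ t : ℝ, 1 ≤ t →
    c * Real.exp (-(Real.pi / 4) * t) / t ≤ ‖Complex.Gammaℝ (1 / 2 + t * Complex.I)‖ := by
  have hpi := Real.pi_pos
  have hG : 0 < Real.Gamma (3 / 4) := Real.Gamma_pos_of_pos (by norm_num)
  set A : ℝ := Real.exp 1 * Real.Gamma (3 / 4) with hA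
  have hA0 : 0 < A := by positivity
  refine ⟨Real.pi ^ (-(1 / 4) : ℝ) * (Real.pi / (A * (3 * Real.pi / 4))), by positivity,
    fun t ht => ?_⟩
  have ht0 : 0 < t := by linarith
  set z : ℂ := (1 / 4 : ℝ) + ((t / 2 : ℝ) : ℂ) * I with hz
  have hs : (1 / 2 + (t : ℂ) * I) / 2 = z := by
    rw [hz]; push_cast; ring
  have h1 : ‖Complex.Gammaℝ (1 / 2 + t * Complex.I)‖ =
      Real.pi ^ (-(1 / 4) : ℝ) * ‖Complex.Gamma z‖ := by
    rw [Complex.Gammaℝ_def, norm_mul, hs]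
    congr 1
    rw [Complex.norm_cpow_eq_rpow_re_of_pos hpi]
    congr 1
    simp
    norm_num
  rw [h1]
  -- reflection formula
  have href := Complex.Gamma_mul_Gamma_one_sub z
  have h1z : 1 - z = ((3 / 4 : ℝ) : ℂ) + ((-(t / 2) : ℝ) : ℂ) * I := by
    rw [hz]; push_cast; ring
  have hup : ‖Complex.Gamma (1 - z)‖ ≤
      Real.exp (1 - Real.pi / 2 * (t / 2)) * Real.Gamma (3 / 4) * (3 * Real.pi / 4 * t) := by
    rw [h1z]
    have h2 := Pool.Agent.Helper242.KK.norm_Gamma_le (σ := 3 / 4) (-(t / 2)) (by norm_num)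
    rw [abs_neg, abs_of_pos (by linarith : 0 < t / 2)] at h2
    refine h2.trans ?_
    have h3 : 1 ≤ Real.pi / 2 * (1 + t / 2) := by
      nlinarith [Real.pi_gt_three]
    have h4 : (Real.pi / 2 * (1 + t / 2)) ^ (3 / 4 : ℝ) ≤ 3 * Real.pi / 4 * t := by
      calc (Real.pi / 2 * (1 + t / 2)) ^ (3 / 4 : ℝ)
          ≤ (Real.pi / 2 * (1 + t / 2)) ^ (1 : ℝ) :=
            Real.rpow_le_rpow_of_exponent_le h3 (by norm_num)
        _ = Real.pi / 2 * (1 + t / 2) := Real.rpow_one _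
        _ ≤ 3 * Real.pi / 4 * t := by nlinarith
    exact mul_le_mul_of_nonneg_left h4 (by positivity)
  have hsin : ‖Complex.sin (Real.pi * z)‖ ≤ Real.exp (Real.pi * (t / 2)) := by
    have h2 : Complex.sin (Real.pi * z) =
        (Complex.exp (-(Real.pi * z) * I) - Complex.exp (Real.pi * z * I)) * I / 2 := rfl
    rw [h2, norm_div, norm_mul, Complex.norm_I, mul_one]
    have h3 : ‖Complex.exp (-(Real.pi * z) * I)‖ ≤ Real.exp (Real.pi * (t / 2)) := by
      rw [Complex.norm_exp]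
      apply Real.exp_le_exp.2
      simp [hz]
    have h4 : ‖Complex.exp (Real.pi * z * I)‖ ≤ Real.exp (Real.pi * (t / 2)) := by
      rw [Complex.norm_exp]
      apply Real.exp_le_exp.2
      simp [hz]
      nlinarith
    have h5 := norm_sub_le (Complex.exp (-(Real.pi * z) * I)) (Complex.exp (Real.pi * z * I))
    have h6 : ‖(2 : ℂ)‖ = 2 := by simp
    rw [h6, div_le_iff₀ (by norm_num)]
    linarith
  have hsin0 : 0 < ‖Complex.sin (Real.pi * z)‖ := by
    rw [norm_pos_iff]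
    intro h0
    rw [h0, div_zero] at href
    rcases mul_eq_zero.1 href with h | h
    · exact Complex.Gamma_ne_zero_of_re_pos (by simp [hz]) h
    · exact Complex.Gamma_ne_zero_of_re_pos (by rw [h1z]; simp) h
  have hprod : ‖Complex.Gamma z‖ * ‖Complex.Gamma (1 - z)‖ =
      Real.pi / ‖Complex.sin (Real.pi * z)‖ := by
    rw [← norm_mul, href, norm_div, Complex.norm_real, Real.norm_eq_abs, abs_of_pos hpi]
  have hlow : Real.pi * Real.exp (-(Real.pi * (t / 2))) ≤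
      ‖Complex.Gamma z‖ * ‖Complex.Gamma (1 - z)‖ := by
    rw [hprod, le_div_iff₀ hsin0]
    calc Real.pi * Real.exp (-(Real.pi * (t / 2))) * ‖Complex.sin (Real.pi * z)‖
        ≤ Real.pi * Real.exp (-(Real.pi * (t / 2))) * Real.exp (Real.pi * (t / 2)) :=
          mul_le_mul_of_nonneg_left hsin (by positivity)
      _ = Real.pi := by rw [mul_assoc, ← Real.exp_add]; simp
  have hfin : Real.pi * Real.exp (-(Real.pi * (t / 2))) ≤ ‖Complex.Gamma z‖ *
      (Real.exp (1 - Real.pi / 2 * (t / 2)) * Real.Gamma (3 / 4) * (3 * Real.pi / 4 * t)) :=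
    hlow.trans (mul_le_mul_of_nonneg_left hup (norm_nonneg _))
  have hE : Real.exp (1 - Real.pi / 2 * (t / 2)) = Real.exp 1 * Real.exp (-(Real.pi / 4 * t)) := by
    rw [← Real.exp_add]; congr 1; ring
  have hE2 : Real.exp (-(Real.pi * (t / 2))) =
      Real.exp (-(Real.pi / 4 * t)) * Real.exp (-(Real.pi / 4 * t)) := by
    rw [← Real.exp_add]; congr 1; ring
  rw [hE, hE2] at hfin
  have hx : 0 < Real.exp (-(Real.pi / 4 * t)) := Real.exp_pos _
  have hfin2 : Real.pi * Real.exp (-(Real.pi / 4 * t)) ≤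
      ‖Complex.Gamma z‖ * (A * (3 * Real.pi / 4) * t) := by
    have h7 : Real.exp (-(Real.pi / 4 * t)) * (Real.pi * Real.exp (-(Real.pi / 4 * t))) ≤
        Real.exp (-(Real.pi / 4 * t)) * (‖Complex.Gamma z‖ * (A * (3 * Real.pi / 4) * t)) := by
      rw [hA]
      calc _ = Real.pi * (Real.exp (-(Real.pi / 4 * t)) * Real.exp (-(Real.pi / 4 * t))) := by ring
        _ ≤ _ := hfin
        _ = _ := by ring
    exact le_of_mul_le_mul_left h7 hx
  have h8 : -(Real.pi / 4) * t = -(Real.pi / 4 * t) := by ring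
  rw [h8, mul_assoc, mul_div_assoc]
  apply mul_le_mul_of_nonneg_left _ (by positivity)
  rw [div_mul_eq_mul_div, div_div, div_le_iff₀ (by positivity)]
  linarith

end Pool.Agent.Y24.GS
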